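import Pool.Agent.H37F.Fan

/-!
# A longest cycle of a 2-connected graph is long if a disjoint set has long internal paths
-/

set_option autoImplicit false

namespace Pool.Agent.H40C

open List Pool.Agent.TF82 Pool.Agent.TFC Pool.Agent.TFB Pool.Agent.TFN Pool.Agent.EG31
  Pool.Agent.H37F

universe u

set_option linter.unusedSectionVars false
set_option linter.unusedVariables false

variable {V : Type u} [DecidableEq V]

/-- replacing an arc by a path outside the cycle -/
theorem arc_replace {G : SimpleGraph V} {H : Finset V} {c A B M : List V} {y z e : V}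
    (hn : ((y :: A) ++ (z :: B)).Nodup) (hB : Seg G (z :: B) z e) (he : G.Adj e y)
    (hBH : ∀ w ∈ B, w ∈ H) (hcl : c.length = A.length + B.length + 2)
    (hmax : ∀ c', CycL G c' → (∀ w ∈ c', w ∈ H) → c'.length ≤ c.length)
    (hM : Seg G M y z) (hMn : M.Nodup) (hMH : ∀ w ∈ M, w ∈ H)
    (hMc : ∀ w ∈ M, w ∈ (y :: A) ++ (z :: B) → w = y ∨ w = z) (h3 : 3 ≤ M.length) :
    M.length ≤ A.length + 2 := by
  have hn' := List.nodup_append.1 hn
  have hs := seg_join hM hB
  have hcyc : CycL G (M ++ B) := by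
    refine ⟨?_, ?_, hs.ch, ?_⟩
    · rw [List.nodup_append]
      refine ⟨hMn, (List.nodup_cons.1 hn'.2.1).2, ?_⟩
      intro a ha b hb hab
      subst hab
      rcases hMc a ha (List.mem_append_right _ (List.mem_cons_of_mem _ hb)) with h | h
      · subst h
        exact hn'.2.2 a (by simp) a (List.mem_cons_of_mem _ hb) rfl
      · subst h
        exact (List.nodup_cons.1 hn'.2.1).1 hb
    · rw [List.length_append]
      omega
    · intro a ha b hb
      rw [hs.lt] at ha
      rw [hs.hd] at hb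
      simp only [Option.mem_def, Option.some.injEq] at ha hb
      rw [← ha, ← hb]
      exact he
  have h := hmax _ hcyc (by
    intro w hw
    rcases List.mem_append.1 hw with hw | hw
    · exact hMH w hw
    · exact hBH w hw)
  rw [List.length_append] at h
  omega

/-- a path outside a longest cycle between two of its vertices is at most half as long -/
theorem link_half {G : SimpleGraph V} {H : Finset V} {c : List V} (hc : CycL G c)
    (hcH : ∀ w ∈ c, w ∈ H)
    (hmax : ∀ c', CycL G c' → (∀ w ∈ c', w ∈ H) → c'.length ≤ c.length) {y z : V} (hy : y ∈ c)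
    (hz : z ∈ c) (hyz : y ≠ z) {M : List V} (hM : Seg G M y z) (hMn : M.Nodup)
    (hMH : ∀ w ∈ M, w ∈ H) (hMc : ∀ w ∈ M, w ∈ c → w = y ∨ w = z) (h3 : 3 ≤ M.length) :
    2 * M.length ≤ c.length + 2 := by
  obtain ⟨A, B, hr, hA, hB⟩ := open_two hc hy hz hyz
  have hnod : ((y :: A) ++ (z :: B)).Nodup := (hr.perm.nodup_iff).1 hc.1
  have hlen : c.length = A.length + B.length + 2 := by
    rw [hr.perm.length_eq, List.length_append, List.length_cons, List.length_cons]
    omega
  have hmem : ∀ w, w ∈ (y :: A) ++ (z :: B) → w ∈ c := fun w hw => hr.perm.mem_iff.2 hw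
  have h1 := arc_replace (H := H) (c := c) hnod hB (hc.prev_adj hy)
    (fun w hw => hcH w (hmem w (List.mem_append_right _ (List.mem_cons_of_mem _ hw)))) hlen hmax
    hM hMn hMH (fun w hw hw' => hMc w hw (hmem w hw')) h3
  have hnod2 : ((z :: B) ++ (y :: A)).Nodup := by
    have : ((z :: B) ++ (y :: A)).Perm ((y :: A) ++ (z :: B)) := List.perm_append_comm
    exact this.nodup_iff.2 hnod
  have h2 := arc_replace (H := H) (c := c) hnod2 hA (hc.prev_adj hz)
    (fun w hw => hcH w (hmem w (List.mem_append_left _ (List.mem_cons_of_mem _ hw))))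
    (by omega) hmax hM.rev (List.nodup_reverse.2 hMn)
    (fun w hw => hMH w (List.mem_reverse.1 hw)) (fun w hw hw' => by
      have h4 : w ∈ (y :: A) ++ (z :: B) := by
        rcases List.mem_append.1 hw' with h | h
        · exact List.mem_append_right _ h
        · exact List.mem_append_left _ h
      exact (hMc w (List.mem_reverse.1 hw) (hmem w h4)).symm) (by simpa using h3)
  rw [List.length_reverse] at h2
  omega

theorem seg_two {G : SimpleGraph V} {P : List V} {a b : V} (hP : Seg G P a b) (hab : a ≠ b) :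
    2 ≤ P.length := by
  rcases P with _ | ⟨p, P⟩
  · have := hP.hd
    simp at this
  rcases P with _ | ⟨q, P⟩
  · exfalso
    have h1 := hP.hd
    have h2 := hP.lt
    simp at h1 h2
    exact hab (h1.symm.trans h2)
  · simp

theorem seg_cons {G : SimpleGraph V} {P : List V} {a b : V} (hP : Seg G P a b) :
    ∃ P', P = a :: P' := by
  rcases P with _ | ⟨p, P⟩
  · have := hP.hd
    simp at this
  · have := hP.hd
    simp at this
    exact ⟨P, by rw [this]⟩

/-- a link between two vertices of the cycle through a set `D` which does not meet the cycle -/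
theorem core_link {G : SimpleGraph V} {H D : Finset V} {c : List V} (h2 : Conn2 G H)
    (hc : CycL G c) (hcH : ∀ w ∈ c, w ∈ H) (hD : D ⊆ H) (hDc : ∀ w ∈ D, w ∉ c)
    (hD2 : 2 ≤ D.card) {n : ℕ}
    (hn : ∀ x ∈ D, ∀ x' ∈ D, x ≠ x' → ∃ Q, Seg G Q x x' ∧ Q.Nodup ∧ (∀ z ∈ Q, z ∈ D) ∧
      n ≤ Q.length) : ∃ y ∈ c, ∃ y' ∈ c, y ≠ y' ∧ ∃ M, Seg G M y y' ∧ M.Nodup ∧
      (∀ w ∈ M, w ∈ H) ∧ (∀ w ∈ M, w ∈ c → w = y ∨ w = y') ∧ 3 ≤ M.length ∧
      n + 2 ≤ M.length := by
  obtain ⟨x, x', r, rfl⟩ : ∃ x x' r, c = x :: x' :: r := by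
    have := hc.2.1
    rcases c with _ | ⟨a, c⟩
    · simp at this
    rcases c with _ | ⟨b, c⟩
    · simp at this
    · exact ⟨a, b, c, rfl⟩
  have hxx : x ≠ x' := by
    have := (List.nodup_cons.1 hc.1).1
    intro h
    apply this
    simp [h]
  obtain ⟨P, Q, u, u', hP, hQ, hnod, hPH, hQH, hu, hu', hPD, hQD⟩ :=
    fan h2 hD hD2 (hcH x (by simp)) (hcH x' (by simp)) hxx
  have hn' := List.nodup_append.1 hnod
  obtain ⟨P1, y, p1, p2, p3, p4⟩ := first_hit (G := G) (fun z => z ∈ x :: x' :: r) P.reverse u x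
    hP.rev (by simp)
  obtain ⟨Q1, y', q1, q2, q3, q4⟩ := first_hit (G := G) (fun z => z ∈ x :: x' :: r) Q.reverse u' x'
    hQ.rev (by simp)
  have hP1 : ∀ z ∈ P1, z ∈ P := fun z hz => List.mem_reverse.1 (p2.subset hz)
  have hQ1 : ∀ z ∈ Q1, z ∈ Q := fun z hz => List.mem_reverse.1 (q2.subset hz)
  have hP1n : P1.Nodup := (List.nodup_reverse.2 hn'.1).sublist p2.sublist
  have hQ1n : Q1.Nodup := (List.nodup_reverse.2 hn'.2.1).sublist q2.sublist
  have huP1 : u ∈ P1 := List.mem_of_mem_head? (by rw [p1.hd]; rfl)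
  have huQ1 : u' ∈ Q1 := List.mem_of_mem_head? (by rw [q1.hd]; rfl)
  have hyP1 : y ∈ P1 := List.mem_of_mem_getLast? (by rw [p1.lt]; rfl)
  have hyQ1 : y' ∈ Q1 := List.mem_of_mem_getLast? (by rw [q1.lt]; rfl)
  have huu : u ≠ u' := hn'.2.2 u (hP1 u huP1) u' (hQ1 u' huQ1)
  have hyy : y ≠ y' := hn'.2.2 y (hP1 y hyP1) y' (hQ1 y' hyQ1)
  obtain ⟨M, hM, hMn, hMD, hMl⟩ := hn u hu u' hu' huu
  obtain ⟨M', rfl⟩ := seg_cons hM
  obtain ⟨Q', rfl⟩ := seg_cons q1
  have huy : u ≠ y := fun h => hDc u hu (h ▸ p3)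
  have huy' : u' ≠ y' := fun h => hDc u' hu' (h ▸ q3)
  have l1 := seg_two p1 huy
  have l2 := seg_two q1 huy'
  rw [List.length_cons] at l2 hMl
  have hs1 := seg_join p1.rev hM
  have hs2 := seg_join hs1 q1
  refine ⟨y, p3, y', q3, hyy, (P1.reverse ++ M') ++ Q', hs2, ?_, ?_, ?_, ?_, ?_⟩
  · rw [List.nodup_append]
    refine ⟨?_, (List.nodup_cons.1 hQ1n).2, ?_⟩
    · rw [List.nodup_append]
      refine ⟨List.nodup_reverse.2 hP1n, (List.nodup_cons.1 hMn).2, ?_⟩
      intro a ha b hb hab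
      subst hab
      have h := hPD a (hP1 a (List.mem_reverse.1 ha)) (hMD a (List.mem_cons_of_mem _ hb))
      subst h
      exact (List.nodup_cons.1 hMn).1 hb
    · intro a ha b hb hab
      subst hab
      have hb' : a ∈ Q := hQ1 a (List.mem_cons_of_mem _ hb)
      rcases List.mem_append.1 ha with ha | ha
      · exact hn'.2.2 a (hP1 a (List.mem_reverse.1 ha)) a hb' rfl
      · have h := hQD a hb' (hMD a (List.mem_cons_of_mem _ ha))
        subst h
        exact (List.nodup_cons.1 hQ1n).1 hb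
  · intro w hw
    rcases List.mem_append.1 hw with hw | hw
    · rcases List.mem_append.1 hw with hw | hw
      · exact hPH w (hP1 w (List.mem_reverse.1 hw))
      · exact hD (hMD w (List.mem_cons_of_mem _ hw))
    · exact hQH w (hQ1 w (List.mem_cons_of_mem _ hw))
  · intro w hw hwc
    rcases List.mem_append.1 hw with hw | hw
    · rcases List.mem_append.1 hw with hw | hw
      · exact Or.inl (p4 w (List.mem_reverse.1 hw) hwc)
      · exact absurd hwc (hDc w (hMD w (List.mem_cons_of_mem _ hw)))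
    · exact Or.inr (q4 w (List.mem_cons_of_mem _ hw) hwc)
  · rw [List.length_append, List.length_append, List.length_reverse]
    omega
  · rw [List.length_append, List.length_append, List.length_reverse]
    omega

/-- **Core lemma.** `c` longest cycle of the 2-connected graph `G[H]`, `D` a set outside `c` in
which any two vertices are joined by a path with at least `n` vertices: `c` has at least
`2 n + 2` vertices. -/
theorem core_long {G : SimpleGraph V} {H D : Finset V} {c : List V} (h2 : Conn2 G H)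
    (hc : CycL G c) (hcH : ∀ w ∈ c, w ∈ H)
    (hmax : ∀ c', CycL G c' → (∀ w ∈ c', w ∈ H) → c'.length ≤ c.length) (hD : D ⊆ H)
    (hDc : ∀ w ∈ D, w ∉ c) (hD2 : 2 ≤ D.card) {n : ℕ}
    (hn : ∀ x ∈ D, ∀ x' ∈ D, x ≠ x' → ∃ Q, Seg G Q x x' ∧ Q.Nodup ∧ (∀ z ∈ Q, z ∈ D) ∧
      n ≤ Q.length) : 2 * n + 2 ≤ c.length := by
  obtain ⟨y, hy, y', hy', hyy, M, m1, m2, m3, m4, m5, m6⟩ :=
    core_link h2 hc hcH hD hDc hD2 hn
  have := link_half hc hcH hmax hy hy' hyy m1 m2 m3 m4 m5
  omega

/-- **GAM from a core.** Any two vertices of `H` are joined by a path with at least `n + 2`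
vertices. -/
theorem gam_of_core {G : SimpleGraph V} {H D : Finset V} {c : List V} (h2 : Conn2 G H)
    (hc : CycL G c) (hcH : ∀ w ∈ c, w ∈ H)
    (hmax : ∀ c', CycL G c' → (∀ w ∈ c', w ∈ H) → c'.length ≤ c.length) (hD : D ⊆ H)
    (hDc : ∀ w ∈ D, w ∉ c) (hD2 : 2 ≤ D.card) {n : ℕ}
    (hn : ∀ x ∈ D, ∀ x' ∈ D, x ≠ x' → ∃ Q, Seg G Q x x' ∧ Q.Nodup ∧ (∀ z ∈ Q, z ∈ D) ∧
      n ≤ Q.length) {x x' : V} (hx : x ∈ H) (hx' : x' ∈ H) (hne : x ≠ x') :
    ∃ Q, Seg G Q x x' ∧ Q.Nodup ∧ (∀ z ∈ Q, z ∈ H) ∧ n + 2 ≤ Q.length := by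
  have h1 := core_long h2 hc hcH hmax hD hDc hD2 hn
  obtain ⟨Q, q1, q2, q3, q4⟩ := long_arc h2 hc hcH hx hx' hne
  exact ⟨Q, q1, q2, q3, by omega⟩

end Pool.Agent.H40C
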