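import Pool.Agent.H62P.Pkg
import Pool.Agent.EG40.Low

/-!
# The package when one cycle is enough
-/

set_option autoImplicit false

namespace Pool.Agent.H40C

open List Pool.Agent.TF82 Pool.Agent.TFC Pool.Agent.TFB Pool.Agent.EG31 Pool.Agent.H18C
  Pool.Agent.H62P

universe u

set_option linter.unusedSectionVars false
set_option linter.unusedVariables false

variable {V : Type u} [DecidableEq V]

/-- degrees of the vertices outside `S` in a graph without cut vertex -/
theorem Kb.deg_sdiff {G : SimpleGraph V} [DecidableRel G.Adj] {H S : Finset V} {b : ℕ}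
    (hK : Kb G H S b) (h2 : Conn2 G H) {u : V} (hu : u ∈ H \ S) : b + 2 ≤ dU G (H \ S) u := by
  have hu' := Finset.mem_sdiff.1 hu
  have h1 := hK.sur {u} (by simpa using hu) (by
    intro a ha c hc hac
    rw [Finset.coe_singleton, Set.mem_singleton_iff] at ha hc
    exact absurd (ha.trans hc.symm) hac) u (Finset.mem_singleton_self u)
    ⟨hu'.1, hu'.2, h2 u hu'.1⟩
  rw [Finset.card_singleton] at h1
  have h3 := dU_union_le (G := G) (H \ S) S u
  rw [Finset.sdiff_union_of_subset hK.sub] at h3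
  have h4 := dU_le (G := G) S u
  omega

/-- any two vertices of a graph without cut vertex are joined by a path with `b + 3` vertices -/
theorem pth_low {G : SimpleGraph V} [DecidableRel G.Adj] {H S : Finset V} {b : ℕ}
    (hK : Kb G H S b) (h2 : Conn2 G H) {x y : V} (hx : x ∈ H) (hy : y ∈ H) (hxy : x ≠ y) :
    Pth G H x y (b + 3) := by
  have c1 : ∀ w ∈ H, ∀ u ∈ H \ S, u ≠ w →
      (x ≠ w ∧ Reach G (H.erase w) u x) ∨ (y ≠ w ∧ Reach G (H.erase w) u y) := by
    intro w hw u hu huw
    have hu' := Finset.mem_sdiff.1 hu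
    by_cases hxw : x = w
    · have hyw : y ≠ w := fun h => hxy (hxw.trans h.symm)
      exact Or.inr ⟨hyw, h2 w hw u (Finset.mem_erase.2 ⟨huw, hu'.1⟩) y
        (Finset.mem_erase.2 ⟨hyw, hy⟩)⟩
    · exact Or.inl ⟨hxw, h2 w hw u (Finset.mem_erase.2 ⟨huw, hu'.1⟩) x
        (Finset.mem_erase.2 ⟨hxw, hx⟩)⟩
  have c2 : ∃ u ∈ H \ S, u ≠ x ∧ u ≠ y := by
    obtain ⟨u, hu⟩ := hK.ne
    have h1 := Kb.deg_sdiff hK h2 hu
    have h3 := dU_le_card (G := G) hu
    by_contra hcon
    push Not at hcon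
    have h4 : H \ S ⊆ {x, y} := by
      intro v hv
      rw [Finset.mem_insert, Finset.mem_singleton]
      by_cases hvx : v = x
      · exact Or.inl hvx
      · exact Or.inr (hcon v hv hvx)
    have h5 := Finset.card_le_card h4
    have h6 : ({x, y} : Finset V).card ≤ 2 := Finset.card_le_two
    omega
  have c3 : ∀ u ∈ H \ S, u ≠ x → u ≠ y → b + 2 ≤ dU G (H \ S ∪ {x, y}) u := by
    intro u hu _ _
    exact (Kb.deg_sdiff hK h2 hu).trans (dU_mono Finset.subset_union_left u)
  obtain ⟨q, q1, q2, q3, q4⟩ := Pool.Agent.EG40.eg_low (G := G) H.card (b + 2) H S x y le_rfl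
    hx hy hxy c1 c2 c3
  exact ⟨q, q1, q2, q3, q4⟩

theorem Pth.mono' {G : SimpleGraph V} {H : Finset V} {a c : V} {m n : ℕ} (h : Pth G H a c n)
    (hmn : m ≤ n) : Pth G H a c m := by
  obtain ⟨q, q1, q2, q3, q4⟩ := h
  exact ⟨q, q1, q2, q3, hmn.trans q4⟩

/-- a set of pairwise near vertices of a graph without cut vertex has at most one element -/
theorem near_card {G : SimpleGraph V} {H S : Finset V} (h2 : Conn2 G H) (hne : (H \ S).Nonempty)
    {N : Finset V} (hN : N ⊆ H) (hnear : ∀ x ∈ N, ∀ y ∈ N, Near G H S x y) : N.card ≤ 1 := by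
  by_contra hcon
  push Not at hcon
  obtain ⟨y₁, hy₁, y₂, hy₂, hy12⟩ := Finset.one_lt_card.1 hcon
  obtain ⟨v, hv⟩ := hne
  have hv' := Finset.mem_sdiff.1 hv
  exact near_two h2 hv'.1 hv'.2 (hN hy₁) (hN hy₂) hy12 (hnear y₁ hy₁ y₂ hy₂)

/-- **the package when one cycle is enough** -/
theorem pkg_one {G : SimpleGraph V} [DecidableRel G.Adj] {H S : Finset V} {b : ℕ}
    (hK : Kb G H S b) (h2 : Conn2 G H) : ∃ I, Pkg G H S b 1 I := by
  obtain ⟨v, hv⟩ := hK.ne
  have hv' := Finset.mem_sdiff.1 hv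
  have hdeg := Kb.deg_sdiff hK h2 hv
  have hdeg2 := dU_mono (G := G) (Finset.sdiff_subset (s := H) (t := S)) v
  have hcard := dU_le_card (G := G) hv'.1
  have hsub : ∀ M ⊆ ({v} : Finset V), M.Nonempty → M = {v} := by
    intro M hM hMn
    rcases Finset.subset_singleton_iff.1 hM with h | h
    · exact absurd hMn (by rw [h]; simp)
    · exact h
  refine ⟨{v}, ?_, ?_, Finset.card_singleton v, ?_, ?_, ?_, ?_⟩
  · intro w hw
    rw [Finset.mem_singleton] at hw
    subst hw
    exact ⟨hv'.1, hv'.2, h2 w hv'.1⟩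
  · intro a ha c hc hac
    rw [Finset.coe_singleton, Set.mem_singleton_iff] at ha hc
    exact absurd (ha.trans hc.symm) hac
  · intro N hN hnear
    have := near_card h2 hK.ne hN hnear
    rw [Finset.sum_singleton]
    omega
  · intro M hM hMn
    have h := hsub M hM hMn
    subst h
    refine ⟨v, Finset.mem_singleton_self v, fun x hx hxv => ?_⟩
    refine Pth.mono' (pth_low hK h2 hv'.1 hx (Ne.symm hxv)) ?_
    rw [Finset.card_singleton]
    omega
  · intro M hM M' hM' hMn hMn' hne
    exfalso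
    apply hne
    rw [hsub M hM hMn, hsub M' hM' hMn']
    exact ⟨rfl, Finset.card_singleton v⟩
  · refine ⟨H, Finset.Subset.refl H, by omega, fun x hx x' hx' hne => ?_⟩
    exact Pth.mono' (pth_low hK h2 hx hx' hne) (by omega)

end Pool.Agent.H40C
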