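import Pool.Agent.H40C.One

/-!
# The core at a cut vertex
-/

set_option autoImplicit false

namespace Pool.Agent.H40C

open List Pool.Agent.TF82 Pool.Agent.TFC Pool.Agent.TFB Pool.Agent.EG31 Pool.Agent.H18C
  Pool.Agent.H62P Pool.Agent.H36C

universe u

set_option linter.unusedSectionVars false
set_option linter.unusedVariables false

variable {V : Type u} [DecidableEq V]

/-- the package for all smaller sets gives `PW` for them -/
theorem pw_of_ihp {G : SimpleGraph V} [DecidableRel G.Adj] {n : ℕ} (hIH : IHP G n) :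
    ∀ (m : ℕ) (U W : Finset V), U.card ≤ m → U.card < n → W ⊆ U → CW G U W → PW G U W := by
  intro m
  induction m with
  | zero =>
    intro U W hm _ _ _
    refine PW_empty ?_
    rintro ⟨x, hx⟩
    have := Finset.card_pos.2 ⟨x, (Finset.mem_sdiff.1 hx).1⟩
    omega
  | succ m ih =>
    intro U W hm hn hW hC
    by_cases hne : (U \ W).Nonempty
    swap
    · exact PW_empty hne
    by_cases h1 : Conn1 G U
    · have hK := Kb.zero hW h1 hne hC
      obtain ⟨f, hf⟩ := hK.cov
      obtain ⟨I, hI⟩ := hIH U W 0 f hn hK hf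
      obtain ⟨x, hx⟩ := hne
      intro k hk
      have hfk : k + 1 ≤ f := by
        by_contra hcon
        exact hk (hf.1.mono (by omega))
      exact drop_elems (fun v hv => Finset.mem_sdiff.2 ⟨(hI.good v hv).mem, (hI.good v hv).nS⟩)
        hI.ind (by rw [hI.card]; exact hfk) (hI.sum (Finset.mem_sdiff.1 hx).1)
    · obtain ⟨A, B, hAB, hd, hA, hB, hno⟩ := exists_split h1
      have hcAB : A.card + B.card = U.card := by
        rw [← hAB, Finset.card_union_of_disjoint hd]
      have hAp := Finset.card_pos.2 hA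
      have hBp := Finset.card_pos.2 hB
      have hAU : A ⊆ U := hAB ▸ Finset.subset_union_left
      have hBU : B ⊆ U := hAB ▸ Finset.subset_union_right
      have hdA : ∀ v ∈ A, dU G U v = dU G A v := by
        intro v hv
        rw [← hAB]
        exact dU_union_of_no (fun b hb => hno v hv b hb)
      have hdB : ∀ v ∈ B, dU G U v = dU G B v := by
        intro v hv
        rw [← hAB, Finset.union_comm]
        exact dU_union_of_no (fun a ha h => hno a ha v hv h.symm)
      have hCX : ∀ X : Finset V, X ⊆ U → (∀ v ∈ X, dU G U v = dU G X v) →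
          CW G X (W ∩ X) := by
        intro X hXU hX I hI hind v hv
        have h0 : I ⊆ U \ W := by
          intro x hx
          have := Finset.mem_sdiff.1 (hI hx)
          exact Finset.mem_sdiff.2 ⟨hXU this.1,
            fun h => this.2 (Finset.mem_inter.2 ⟨h, this.1⟩)⟩
        have h1 := hC I h0 hind v hv
        rw [hX v (Finset.mem_sdiff.1 (hI hv)).1] at h1
        have h2 : (W ∩ X).card ≤ W.card := Finset.card_le_card Finset.inter_subset_left
        omega
      exact PW_disj hW hC hAB hd hno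
        (ih A (W ∩ A) (by omega) (by omega) Finset.inter_subset_right (hCX A hAU hdA))
        (ih B (W ∩ B) (by omega) (by omega) Finset.inter_subset_right (hCX B hBU hdB))

/-- two disjoint components at a cut vertex -/
theorem two_parts {G : SimpleGraph V} {H : Finset V} {z : V} (hz : z ∈ H)
    (hzc : ¬ Conn1 G (H.erase z)) :
    ∃ C C', Part G H z C ∧ Part G H z C' ∧ Disjoint C C' := by
  unfold Conn1 at hzc
  push Not at hzc
  obtain ⟨a, ha, c, hc, hr⟩ := hzc
  obtain ⟨C, haC, hC⟩ := exists_part (G := G) hz ha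
  obtain ⟨C', hcC, hC'⟩ := exists_part (G := G) hz hc
  refine ⟨C, C', hC, hC', ?_⟩
  rw [Finset.disjoint_left]
  intro y hy hy'
  exact hr (Relation.ReflTransGen.trans ((hC.conn a haC y hy).mono hC.sub)
    ((hC'.conn y hy' c hcC).mono hC'.sub))

/-- the surplus of a component together with the cut vertex -/
theorem kb_part {G : SimpleGraph V} [DecidableRel G.Adj] {H S C J : Finset V} {b : ℕ} {z : V}
    (hK : Kb G H S b) (hC : Part G H z C) (hCS : (C \ S).Nonempty) {u₀ : V} (hu : u₀ ∈ H)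
    (hu' : u₀ ∉ insert z C) (hJ : J ⊆ H \ S) (hJi : G.IsIndepSet (J : Set V))
    (hJC : ∀ v ∈ J, v ∉ insert z C) (hJ1 : 1 ≤ J.card) :
    Kb G (insert z C) (insert z (S ∩ C)) (J.card + S.card + b - (S ∩ C).card - 1) := by
  have hCs : Side G H z C := hC.side
  have hzS : z ∉ S ∩ C := fun h => hC.znC (Finset.mem_inter.1 h).2
  have hcS : (insert z (S ∩ C)).card = (S ∩ C).card + 1 := Finset.card_insert_of_notMem hzS
  have hle : (S ∩ C).card ≤ S.card := Finset.card_le_card Finset.inter_subset_left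
  refine ⟨Finset.insert_subset_insert _ Finset.inter_subset_right, hCs.conn_ins hK.con, ?_, ?_, ?_⟩
  · obtain ⟨x, hx⟩ := hCS
    rw [Finset.mem_sdiff] at hx
    refine ⟨x, Finset.mem_sdiff.2 ⟨Finset.mem_insert_of_mem hx.1, fun h => ?_⟩⟩
    rcases Finset.mem_insert.1 h with h | h
    · exact hC.znC (h ▸ hx.1)
    · exact hx.2 (Finset.mem_inter.1 h).1
  · exact cw_of_cwb (hCs.cwb hK.sub (cwb_of_cw hK.cw) hu hu')
  · intro I hI hind v hv hg
    have hIC : ∀ y ∈ I, y ∈ C ∧ y ∉ S := by
      intro y hy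
      have := hI hy
      rw [Finset.mem_sdiff] at this
      have hyz : y ≠ z := fun he => this.2 (he ▸ Finset.mem_insert_self _ _)
      have hyC : y ∈ C := by
        rcases Finset.mem_insert.1 this.1 with h1 | h1
        · exact absurd h1 hyz
        · exact h1
      exact ⟨hyC, fun hyS => this.2 (Finset.mem_insert_of_mem (Finset.mem_inter.2 ⟨hyS, hyC⟩))⟩
    have hvC := (hIC v hv).1
    have hgH : Good G H S v := hCs.good_of hK.con hg hvC
    have hdis : Disjoint I J := by
      rw [Finset.disjoint_left]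
      intro y hy hyJ
      exact hJC y hyJ (Finset.mem_insert_of_mem (hIC y hy).1)
    have hno : ∀ a ∈ I, ∀ c ∈ J, ¬ G.Adj a c := by
      intro a ha c hc hadj
      rcases hC.cl a (hIC a ha).1 c (Finset.mem_sdiff.1 (hJ hc)).1 hadj with h | h
      · exact hJC c hc (Finset.mem_insert_of_mem h)
      · exact hJC c hc (h ▸ Finset.mem_insert_self _ _)
    have h1 := hK.sur (I ∪ J) (by
      intro y hy
      rcases Finset.mem_union.1 hy with hy | hy
      · exact Finset.mem_sdiff.2 ⟨hCs.subH (hIC y hy).1, (hIC y hy).2⟩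
      · exact hJ hy) (by
      intro a ha c hc hac hadj
      rw [Finset.mem_coe, Finset.mem_union] at ha hc
      rcases ha with ha | ha <;> rcases hc with hc | hc
      · exact hind ha hc hac hadj
      · exact hno a ha c hc hadj
      · exact hno c hc a ha hadj.symm
      · exact hJi ha hc hac hadj) v (Finset.mem_union_left _ hv) hgH
    rw [Finset.card_union_of_disjoint hdis] at h1
    rw [hCs.dU_eq hvC, hcS]
    omega

/-- **The core at a cut vertex** (the field `co` of the package). -/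
theorem co_cut {G : SimpleGraph V} [DecidableRel G.Adj] {H S : Finset V} {b f : ℕ} {z : V}
    (hK : Kb G H S b) (hf : MinCov G H S f) (hz : z ∈ H) (hzc : ¬ Conn1 G (H.erase z))
    (hpart : ∀ C, Part G H z C → (C \ S).Nonempty) (hIH : IHP G H.card) :
    ∃ D ⊆ H, 2 ≤ D.card ∧ ∀ x ∈ D, ∀ x' ∈ D, x ≠ x' →
      Pth G D x x' (f + b + 1 + min 1 S.card) := by
  -- a component that does not contain `S`, and another one
  obtain ⟨C, C', hC, hC', hCC, hSC⟩ : ∃ C C', Part G H z C ∧ Part G H z C' ∧ Disjoint C C' ∧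
      (S = ∅ ∨ ∃ s ∈ S, s ∉ C) := by
    obtain ⟨C, C', hC, hC', hCC⟩ := two_parts (G := G) hz hzc
    by_cases hS : S ⊆ C
    · refine ⟨C', C, hC', hC, hCC.symm, ?_⟩
      rcases S.eq_empty_or_nonempty with h | ⟨s, hs⟩
      · exact Or.inl h
      · exact Or.inr ⟨s, hs, fun h => Finset.disjoint_left.1 hCC (hS hs) h⟩
    · obtain ⟨s, hs, hsC⟩ := Finset.not_subset.1 hS
      exact ⟨C, C', hC, hC', hCC, Or.inr ⟨s, hs, hsC⟩⟩
  obtain ⟨u₀, hu₀⟩ := hpart C' hC'
  rw [Finset.mem_sdiff] at hu₀
  have hCs : Side G H z C := hC.side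
  have huH : u₀ ∈ H := hC'.side.subH hu₀.1
  have huC : u₀ ∉ insert z C := by
    intro h
    rcases Finset.mem_insert.1 h with h | h
    · exact hC'.znC (h ▸ hu₀.1)
    · exact Finset.disjoint_left.1 hCC h hu₀.1
  -- the rest
  obtain ⟨B, hB⟩ : ∃ B, B = (H.erase z) \ C := ⟨_, rfl⟩
  have hBs : Side G H z B := hB ▸ hC.rest
  have huB : u₀ ∈ B := by
    rw [hB]
    refine Finset.mem_sdiff.2 ⟨hC'.sub hu₀.1, fun h => huC (Finset.mem_insert_of_mem h)⟩
  obtain ⟨x₀, hx₀⟩ := hC.ne
  have hx₀B : x₀ ∉ insert z B := by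
    intro h
    rcases Finset.mem_insert.1 h with h | h
    · exact hC.znC (h ▸ hx₀)
    · rw [hB] at h
      exact (Finset.mem_sdiff.1 h).2 hx₀
  have hCB0 : CW G B (S ∩ B) := hBs.cw0 hK.sub hK.cw (hCs.subH hx₀) hx₀B
  obtain ⟨b0, hb0, hb0'⟩ := exists_min_cov Finset.inter_subset_right hCB0
  have hb01 : 1 ≤ b0 := by
    by_contra hcon
    have : b0 = 0 := by omega
    subst this
    exact cov_pos ⟨u₀, Finset.mem_sdiff.2 ⟨huB, fun h => hu₀.2 (Finset.mem_inter.1 h).1⟩⟩ hb0
  have hBH : B.card < H.card := Finset.card_lt_card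
    ⟨hBs.subH, fun h => hBs.znC (h hz)⟩
  obtain ⟨J, j1, j2, j3, -⟩ := pw_of_ihp hIH B.card B (S ∩ B) le_rfl hBH
    Finset.inter_subset_right hCB0 (b0 - 1) (hb0' _ (by omega))
  have hJB : ∀ v ∈ J, v ∈ B ∧ v ∉ S := by
    intro v hv
    have := Finset.mem_sdiff.1 (j1 hv)
    exact ⟨this.1, fun h => this.2 (Finset.mem_inter.2 ⟨h, this.1⟩)⟩
  have hK1 := kb_part hK hC (hpart C hC) huH huC (J := J)
    (fun v hv => Finset.mem_sdiff.2 ⟨hBs.subH (hJB v hv).1, (hJB v hv).2⟩) j2
    (fun v hv h => by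
      have h1 := (hJB v hv).1
      rcases Finset.mem_insert.1 h with h | h
      · exact hBs.znC (h ▸ h1)
      · rw [hB] at h1
        exact (Finset.mem_sdiff.1 h1).2 h) (by omega)
  obtain ⟨a1, ha1⟩ := hK1.cov
  have hall : ∀ x ∈ H, x = z ∨ x ∈ C ∨ x ∈ B := by
    intro x hx
    by_cases h : x = z
    · exact Or.inl h
    · by_cases h' : x ∈ C
      · exact Or.inr (Or.inl h')
      · right; right
        rw [hB]
        exact Finset.mem_sdiff.2 ⟨Finset.mem_erase.2 ⟨h, hx⟩, h'⟩
  have hfle : f ≤ a1 + b0 := by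
    refine hf.le (glue hK.sub hK.cw hz hCs.subH hBs.subH ?_ hall ha1.1 hb0)
    rw [Finset.disjoint_insert_left]
    refine ⟨hBs.znC, ?_⟩
    rw [hB]
    exact Finset.disjoint_sdiff
  have hcard : (insert z C).card < H.card := Finset.card_lt_card
    ⟨hCs.insH, fun h => huC (h huH)⟩
  obtain ⟨I, hI⟩ := hIH _ _ _ _ hcard hK1 ha1
  obtain ⟨D, hD, hD2, hDp⟩ := hI.co
  refine ⟨D, hD.trans hCs.insH, hD2, fun x hx x' hx' hne => Pth.mono' (hDp x hx x' hx' hne) ?_⟩
  have hzS : z ∉ S ∩ C := fun h => hC.znC (Finset.mem_inter.1 h).2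
  have hcS : (insert z (S ∩ C)).card = (S ∩ C).card + 1 := Finset.card_insert_of_notMem hzS
  have hle : (S ∩ C).card + min 1 S.card ≤ S.card := by
    rcases hSC with h | ⟨s, hs, hsC⟩
    · subst h
      simp
    · have : (S ∩ C).card < S.card := Finset.card_lt_card
        ⟨Finset.inter_subset_left, fun h => hsC (Finset.mem_inter.1 (h hs)).2⟩
      omega
  rw [hcS]
  omega

end Pool.Agent.H40C
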